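import Pool.Agent.H8.AV3.Stmts7

/-!
# AZ3: few forms with vanishing first coefficient of the Jacobian
-/

set_option autoImplicit false

namespace Pool.Agent.H93.AV3C

open Polynomial Matrix Pool.AV3

/-- The number of free coefficients of the entry `i`. -/
def kk (n α β : ℕ) (i : Fin 10) : ℕ :=
  ((n : ℤ) + ∑ s, dv α β (tr i s) - ∑ j, dv α β j + 1).toNat

theorem kk_val (n α β : ℕ) (h : 2 * α + β ≤ n + 1) :
    kk n α β 0 = n + 1 - (2 * α + β) ∧ kk n α β 1 = n + 1 - (α + β) ∧
    kk n α β 2 = n + 1 - α ∧ kk n α β 3 = n + 1 - β ∧ kk n α β 4 = n + 1 ∧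
    kk n α β 5 = n + 1 + β ∧ kk n α β 6 = n + 1 + α - β ∧ kk n α β 7 = n + 1 + α ∧
    kk n α β 8 = n + 1 + α + β ∧ kk n α β 9 = n + 1 + α + 2 * β := by
  simp only [kk, Fin.sum_univ_succ, tr, dv, Fin.sum_univ_zero]
  simp
  omega

theorem sum_kk {n α β : ℕ} (h : 2 * α + β ≤ n + 1) : ∑ i, kk n α β i = 10 * n + 10 := by
  obtain ⟨h0, h1, h2, h3, h4, h5, h6, h7, h8, h9⟩ := kk_val n α β h
  simp only [Fin.sum_univ_succ, Fin.sum_univ_zero]
  simp
  omega

theorem coeff_zero {F : Type} [Field F] {n α β : ℕ} {c : Fin 10 → F[X]}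
    (hc : c ∈ Vd n (dv α β)) (i : Fin 10) (j : ℕ) (hj : kk n α β i ≤ j) : (c i).coeff j = 0 := by
  by_cases h0 : c i = 0
  · rw [h0, Polynomial.coeff_zero]
  · have h1 := hc i h0
    apply Polynomial.coeff_eq_zero_of_natDegree_lt
    simp only [kk] at hj
    omega

theorem ext_coeff {F : Type} [Field F] {n α β : ℕ} {c c' : Fin 10 → F[X]}
    (hc : c ∈ Vd n (dv α β)) (hc' : c' ∈ Vd n (dv α β)) (i : Fin 10)
    (h : ∀ j : Fin (kk n α β i), (c i).coeff j = (c' i).coeff j) : c i = c' i := by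
  ext j
  by_cases hj : j < kk n α β i
  · exact h ⟨j, hj⟩
  · rw [coeff_zero hc i j (by omega), coeff_zero hc' i j (by omega)]

theorem Vd_finite (F : Type) [Field F] [Finite F] (n α β : ℕ) :
    (Vd n (dv α β) : Set (Fin 10 → F[X])).Finite := by
  let e : (Vd n (dv α β) : Set (Fin 10 → F[X])) → ((i : Fin 10) → (Fin (kk n α β i) → F)) :=
    fun c i j => (c.1 i).coeff j
  have he : Function.Injective e := by
    intro c c' h
    apply Subtype.ext
    funext i
    exact ext_coeff c.2 c'.2 i fun j => congrFun (congrFun h i) j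
  have : Finite (Vd n (dv α β) : Set (Fin 10 → F[X])) := Finite.of_injective e he
  exact Set.toFinite _

open Classical in
theorem az3_thm : AZ3Stmt := by
  intro F _ _ h2 n α β hn
  refine ⟨Vd_finite F n α β, ?_⟩
  let S : Set (Fin 10 → F[X]) := {c | c ∈ Vd n (dv α β) ∧ (Jc (hf F) c).1 = 0}
  let s : F[X] → F[X] := fun v => if h : ∃ r, r ^ 2 = v then h.choose else 0
  have hs : ∀ r : F[X], r = s (r ^ 2) ∨ r = - s (r ^ 2) := by
    intro r
    have h : ∃ r', r' ^ 2 = r ^ 2 := ⟨r, rfl⟩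
    have h1 : s (r ^ 2) ^ 2 = r ^ 2 := by
      simp only [s, dif_pos h]
      exact h.choose_spec
    rcases sq_eq_sq_iff_eq_or_eq_neg.1 h1 with h3 | h3
    · left
      exact h3.symm
    · right
      rw [h3, neg_neg]
  let e : S → ((i : {i : Fin 10 // i ≠ 4}) → (Fin (kk n α β i) → F)) × Bool :=
    fun c => (fun i j => (c.1 i).coeff j, decide (c.1 4 = s (c.1 4 ^ 2)))
  have h4 : ∀ c ∈ S, c 4 ^ 2 = 4 * (c 1 * c 8 + c 2 * c 7 + c 3 * c 5) := by
    intro c hc
    have h5 := hc.2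
    simp only [Jc] at h5
    have h6 : (4 : F[X]) * hf F ^ 2 = 1 := by
      rw [hf, ← C_pow]
      have : (4 : F[X]) = C 4 := (map_ofNat C 4).symm
      rw [this, ← C_mul]
      have h7 : (4 : F) * (2⁻¹) ^ 2 = 1 := by
        have : (4 : F) = 2 ^ 2 := by norm_num
        rw [this, ← mul_pow, mul_inv_cancel₀ h2, one_pow]
      rw [h7, C_1]
    linear_combination 4 * h5 - c 4 ^ 2 * h6
  have he : Function.Injective e := by
    intro c c' h
    have h1 : ∀ i : Fin 10, i ≠ 4 → c.1 i = c'.1 i := by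
      intro i hi
      exact ext_coeff c.2.1 c'.2.1 i fun j =>
        congrFun (congrFun (congrArg Prod.fst h) ⟨i, hi⟩) j
    have h3 : c.1 4 ^ 2 = c'.1 4 ^ 2 := by
      rw [h4 c.1 c.2, h4 c'.1 c'.2, h1 1 (by decide), h1 2 (by decide), h1 3 (by decide),
        h1 5 (by decide), h1 7 (by decide), h1 8 (by decide)]
    have h5 : decide (c.1 4 = s (c.1 4 ^ 2)) = decide (c'.1 4 = s (c'.1 4 ^ 2)) :=
      congrArg Prod.snd h
    have h6 : c.1 4 = c'.1 4 := by
      by_cases h7 : c.1 4 = s (c.1 4 ^ 2)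
      · have h8 : c'.1 4 = s (c'.1 4 ^ 2) := by
          rw [decide_eq_true h7] at h5
          exact of_decide_eq_true h5.symm
        rw [h7, h8, h3]
      · have h8 : ¬ c'.1 4 = s (c'.1 4 ^ 2) := by
          rw [decide_eq_false h7] at h5
          exact of_decide_eq_false h5.symm
        rcases hs (c.1 4) with h9 | h9
        · exact absurd h9 h7
        · rcases hs (c'.1 4) with h10 | h10
          · exact absurd h10 h8
          · rw [h9, h10, h3]
    apply Subtype.ext
    funext i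
    by_cases hi : i = 4
    · rw [hi]
      exact h6
    · exact h1 i hi
  have hcard := Nat.card_le_card_of_injective e he
  rw [Nat.card_coe_set_eq] at hcard
  change S.ncard ≤ _
  refine hcard.trans (le_of_eq ?_)
  rw [Nat.card_prod, Nat.card_pi]
  simp only [Nat.card_fun, Nat.card_fin]
  rw [Finset.prod_pow_eq_pow_sum]
  have h10 : ∑ i : {i : Fin 10 // i ≠ 4}, kk n α β i = 9 * n + 9 := by
    have h11 : ∑ i : {i : Fin 10 // i ≠ 4}, kk n α β i =
        ∑ i ∈ Finset.univ.filter (fun i : Fin 10 => i ≠ 4), kk n α β i :=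
      (Finset.sum_subtype (Finset.univ.filter (fun i : Fin 10 => i ≠ 4)) (by simp)
        (fun i => kk n α β i)).symm
    have h12 : ∑ i ∈ Finset.univ.filter (fun i : Fin 10 => i ≠ 4), kk n α β i + kk n α β 4 =
        10 * n + 10 := by
      rw [← sum_kk hn, Finset.filter_ne', add_comm, Finset.add_sum_erase _ _ (Finset.mem_univ _)]
    have h13 := (kk_val n α β hn).2.2.2.2.1
    omega
  rw [h10, mul_comm]
  simp

end Pool.Agent.H93.AV3C
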