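import Pool.Agent.H93.AV3C.AZ3

/-!
# TWO: two coefficients with a large common prime divisor are rare
-/

set_option autoImplicit false

namespace Pool.Agent.H93.AV3C

open Polynomial Matrix Pool.AV3

variable {F : Type} [Field F]

/-- The numbers of free coefficients after division by a polynomial of degree `d`. -/
def kd (k : Fin 10 → ℕ) (i j : Fin 10) (d : ℕ) (l : Fin 10) : ℕ :=
  if l = i ∨ l = j then k l - d else k l

/-- The set of forms with vanishing entry `i`. -/
def Z0 (n α β : ℕ) (i : Fin 10) : Set (Fin 10 → F[X]) := {c | c ∈ Vd n (dv α β) ∧ c i = 0}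

/-- The set of forms with entries `i`, `j` divisible by a monic polynomial of degree `d`. -/
def Sd (n α β : ℕ) (i j : Fin 10) (d : ℕ) : Set (Fin 10 → F[X]) :=
  {c | c ∈ Vd n (dv α β) ∧ c i ≠ 0 ∧ c j ≠ 0 ∧ ∃ P : F[X], P.Monic ∧ P.natDegree = d ∧
    P ∣ c i ∧ P ∣ c j}

theorem Z0_card [Finite F] {n α β : ℕ} (hn : 2 * α + β ≤ n + 1) (i : Fin 10) :
    (Z0 n α β i : Set (Fin 10 → F[X])).ncard * Nat.card F ^ (n + 1) ≤
      Nat.card F ^ (10 * n + 10 + 2 * α + β) := by
  let e : ↥(Z0 n α β i : Set (Fin 10 → F[X])) → ((l : {l : Fin 10 // l ≠ i}) →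
      (Fin (kk n α β l) → F)) := fun c l m => (c.1 l).coeff m
  have he : Function.Injective e := by
    intro c c' h
    apply Subtype.ext
    funext l
    by_cases hl : l = i
    · rw [hl, c.2.2, c'.2.2]
    · exact ext_coeff c.2.1 c'.2.1 l fun j => congrFun (congrFun h ⟨l, hl⟩) j
  have hcard := Nat.card_le_card_of_injective e he
  rw [Nat.card_coe_set_eq, Nat.card_pi] at hcard
  simp only [Nat.card_fun, Nat.card_fin] at hcard
  rw [Finset.prod_pow_eq_pow_sum] at hcard
  refine (Nat.mul_le_mul_right _ hcard).trans ?_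
  rw [← pow_add]
  have hq : 0 < Nat.card F := Nat.card_pos
  apply Nat.pow_le_pow_right hq
  have h11 : ∑ l : {l : Fin 10 // l ≠ i}, kk n α β l =
      ∑ l ∈ Finset.univ.filter (fun l : Fin 10 => l ≠ i), kk n α β l :=
    (Finset.sum_subtype (Finset.univ.filter (fun l : Fin 10 => l ≠ i)) (by simp)
      (fun l => kk n α β l)).symm
  have h12 : ∑ l ∈ Finset.univ.filter (fun l : Fin 10 => l ≠ i), kk n α β l + kk n α β i =
      10 * n + 10 := by
    rw [← sum_kk hn, Finset.filter_ne', add_comm, Finset.add_sum_erase _ _ (Finset.mem_univ _)]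
  have h13 : n + 1 ≤ kk n α β i + 2 * α + β := by
    obtain ⟨h0, h1, h2, h3, h4, h5, h6, h7, h8, h9⟩ := kk_val n α β hn
    fin_cases i <;> simp only [Fin.zero_eta, Fin.mk_one, Fin.reduceFinMk] <;> omega
  omega

theorem mul_aux {P u : F[X]} (hP : P.Monic) (hu : u ≠ 0) :
    (P * u).natDegree = P.natDegree + u.natDegree :=
  Polynomial.natDegree_mul hP.ne_zero hu

theorem Sd_card [Finite F] {n α β : ℕ} (hn : 2 * α + β ≤ n + 1) {i j : Fin 10} (hij : i ≠ j)
    (d : ℕ) : (Sd n α β i j d : Set (Fin 10 → F[X])).ncard * Nat.card F ^ d ≤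
      Nat.card F ^ (10 * n + 10) := by
  classical
  let k := kk n α β
  by_cases hne : (Sd n α β i j d : Set (Fin 10 → F[X])).Nonempty
  swap
  · rw [Set.not_nonempty_iff_eq_empty] at hne
    rw [hne]
    simp
  -- the choice of the divisor
  have hP : ∀ c : (Sd n α β i j d : Set (Fin 10 → F[X])), ∃ P : F[X], P.Monic ∧
      P.natDegree = d ∧ P ∣ c.1 i ∧ P ∣ c.1 j := fun c => c.2.2.2.2
  choose P hPm hPd hPi hPj using hP
  -- degrees
  have hdeg : ∀ c : (Sd n α β i j d : Set (Fin 10 → F[X])), ∀ l : Fin 10, c.1 l ≠ 0 →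
      (c.1 l).natDegree < k l := by
    intro c l hl
    have h1 := c.2.1 l hl
    simp only [k, kk]
    omega
  have hki : d ≤ k i ∧ d ≤ k j := by
    obtain ⟨c, hc⟩ := hne
    have h1 := hdeg ⟨c, hc⟩ i hc.2.1
    have h2 := hdeg ⟨c, hc⟩ j hc.2.2.1
    have h3 := Polynomial.natDegree_le_of_dvd (hPi ⟨c, hc⟩) hc.2.1
    have h4 := Polynomial.natDegree_le_of_dvd (hPj ⟨c, hc⟩) hc.2.2.1
    rw [hPd] at h3 h4
    simp only at h1 h2 h3 h4
    omega
  -- the quotient
  let q : ↥(Sd n α β i j d : Set (Fin 10 → F[X])) → Fin 10 → F[X] := fun c l =>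
    if l = i ∨ l = j then c.1 l /ₘ P c else c.1 l
  have hq1 : ∀ c l, l = i ∨ l = j → c.1 l = P c * q c l := by
    intro c l hl
    simp only [q, if_pos hl]
    have hd : P c ∣ c.1 l := by
      rcases hl with h | h
      · rw [h]; exact hPi c
      · rw [h]; exact hPj c
    obtain ⟨u, hu⟩ := hd
    rw [hu, Polynomial.mul_divByMonic_cancel_left u (hPm c)]
  have hq2 : ∀ c l, ¬ (l = i ∨ l = j) → c.1 l = q c l := by
    intro c l hl
    simp only [q, if_neg hl]
  have hqd : ∀ c l m, kd k i j d l ≤ m → (q c l).coeff m = 0 := by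
    intro c l m hm
    by_cases h0 : q c l = 0
    · rw [h0, Polynomial.coeff_zero]
    apply Polynomial.coeff_eq_zero_of_natDegree_lt
    by_cases hl : l = i ∨ l = j
    · simp only [kd, if_pos hl] at hm
      have h1 := hq1 c l hl
      have h2 : c.1 l ≠ 0 := by
        rcases hl with h | h
        · rw [h]; exact c.2.2.1
        · rw [h]; exact c.2.2.2.1
      have h3 := hdeg c l h2
      rw [h1, mul_aux (hPm c) h0, hPd] at h3
      omega
    · simp only [kd, if_neg hl] at hm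
      have h1 := hq2 c l hl
      have h3 := hdeg c l (by rw [h1]; exact h0)
      rw [h1] at h3
      omega
  let e : ↥(Sd n α β i j d : Set (Fin 10 → F[X])) → (Fin d → F) × ((l : Fin 10) →
      (Fin (kd k i j d l) → F)) := fun c => (fun m => (P c).coeff m, fun l m => (q c l).coeff m)
  have he : Function.Injective e := by
    intro c c' h
    have h1 : P c = P c' := by
      ext m
      rcases lt_trichotomy m d with hm | hm | hm
      · exact congrFun (congrArg Prod.fst h) ⟨m, hm⟩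
      · have h2 : (P c).coeff m = 1 := by
          rw [hm, ← hPd c]
          exact hPm c
        have h3 : (P c').coeff m = 1 := by
          rw [hm, ← hPd c']
          exact hPm c'
        rw [h2, h3]
      · rw [Polynomial.coeff_eq_zero_of_natDegree_lt (by rw [hPd]; exact hm),
          Polynomial.coeff_eq_zero_of_natDegree_lt (by rw [hPd]; exact hm)]
    have h2 : ∀ l, q c l = q c' l := by
      intro l
      ext m
      by_cases hm : m < kd k i j d l
      · exact congrFun (congrFun (congrArg Prod.snd h) l) ⟨m, hm⟩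
      · rw [hqd c l m (by omega), hqd c' l m (by omega)]
    apply Subtype.ext
    funext l
    by_cases hl : l = i ∨ l = j
    · rw [hq1 c l hl, hq1 c' l hl, h1, h2]
    · rw [hq2 c l hl, hq2 c' l hl, h2]
  have hcard := Nat.card_le_card_of_injective e he
  rw [Nat.card_coe_set_eq, Nat.card_prod] at hcard
  simp only [Nat.card_pi, Finset.prod_const, Finset.card_univ, Fintype.card_fin] at hcard
  rw [Finset.prod_pow_eq_pow_sum] at hcard
  refine (Nat.mul_le_mul_right _ hcard).trans ?_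
  rw [← pow_add, ← pow_add]
  have hq : 0 < Nat.card F := Nat.card_pos
  apply Nat.pow_le_pow_right hq
  have hs : ∑ l, kd k i j d l + 2 * d = 10 * n + 10 := by
    rw [← sum_kk hn]
    have h1 : ∀ l, kd k i j d l + (if l = i ∨ l = j then d else 0) = k l := by
      intro l
      by_cases hl : l = i ∨ l = j
      · simp only [kd, if_pos hl]
        rcases hl with h | h
        · rw [h]
          omega
        · rw [h]
          omega
      · simp only [kd, if_neg hl]
        omega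
    have h2 : ∑ l : Fin 10, (if l = i ∨ l = j then d else 0) = 2 * d := by
      rw [← Finset.sum_filter]
      have h3 : Finset.univ.filter (fun l : Fin 10 => l = i ∨ l = j) = {i, j} := by
        ext l
        simp
      rw [h3, Finset.sum_pair hij]
      ring
    rw [← h2, ← Finset.sum_add_distrib]
    exact Finset.sum_congr rfl fun l _ => h1 l
  omega

theorem cover {n α β C : ℕ} (hn : 2 * α + β ≤ n + 1) :
    {c : Fin 10 → F[X] | c ∈ Vd n (dv α β) ∧ ∃ P : F[X], P.Monic ∧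
      Irreducible P ∧ n ≤ 2 * P.natDegree + C ∧ ∃ i j : Fin 10, i ≠ j ∧ P ∣ c i ∧
        P ∣ c j} ⊆ (⋃ i ∈ (Finset.univ : Finset (Fin 10)), Z0 n α β i) ∪
      ⋃ x ∈ ((Finset.univ : Finset (Fin 10)) ×ˢ ((Finset.univ : Finset (Fin 10)) ×ˢ
        Finset.Ico ((n - C) / 2) (n + 1 + α + 2 * β))).filter (fun x => x.1 ≠ x.2.1),
        Sd n α β x.1 x.2.1 x.2.2 := by
  intro c hc
  obtain ⟨hV, P, hPm, -, hd, i, j, hij, hi, hj⟩ := hc
  by_cases h0 : c i = 0
  · left
    simp only [Set.mem_iUnion]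
    exact ⟨i, Finset.mem_univ _, hV, h0⟩
  by_cases h1 : c j = 0
  · left
    simp only [Set.mem_iUnion]
    exact ⟨j, Finset.mem_univ _, hV, h1⟩
  right
  simp only [Set.mem_iUnion]
  refine ⟨(i, j, P.natDegree), ?_, hV, h0, h1, P, hPm, rfl, hi, hj⟩
  rw [Finset.mem_filter, Finset.mem_product, Finset.mem_product, Finset.mem_Ico]
  refine ⟨⟨Finset.mem_univ _, Finset.mem_univ _, by simp only; omega, ?_⟩, hij⟩
  have h2 := Polynomial.natDegree_le_of_dvd hi h0
  have h3 : (c i).natDegree < kk n α β i := by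
    have h4 := hV i h0
    simp only [kk]
    omega
  have h5 : kk n α β i ≤ n + 1 + α + 2 * β := by
    obtain ⟨h0, h1, h2, h3, h4, h5, h6, h7, h8, h9⟩ := kk_val n α β hn
    fin_cases i <;> simp only [Fin.zero_eta, Fin.mk_one, Fin.reduceFinMk] <;> omega
  simp only
  omega

/-- The elementary limit. -/
theorem lim (K : ℕ) (ε : ℝ) (hε : 0 < ε) : ∃ m₀ : ℕ, ∀ m : ℕ, m₀ ≤ m →
    (100 * (2 * m + K) + 10) * (1 / 2 : ℝ) ^ m ≤ ε := by
  have h1 : Filter.Tendsto (fun m : ℕ => (m : ℝ) * (1 / 2 : ℝ) ^ m) Filter.atTop (nhds 0) :=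
    tendsto_self_mul_const_pow_of_lt_one (by norm_num) (by norm_num)
  have h2 : Filter.Tendsto (fun m : ℕ => (1 / 2 : ℝ) ^ m) Filter.atTop (nhds 0) :=
    tendsto_pow_atTop_nhds_zero_of_lt_one (by norm_num) (by norm_num)
  have h3 : Filter.Tendsto (fun m : ℕ => 200 * ((m : ℝ) * (1 / 2 : ℝ) ^ m) +
      (100 * (K : ℝ) + 10) * (1 / 2 : ℝ) ^ m) Filter.atTop (nhds 0) := by
    have h4 := (h1.const_mul 200).add (h2.const_mul (100 * (K : ℝ) + 10))
    simpa using h4
  have h5 := h3.eventually (gt_mem_nhds hε)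
  rw [Filter.eventually_atTop] at h5
  obtain ⟨m₀, hm₀⟩ := h5
  refine ⟨m₀, fun m hm => ?_⟩
  have h6 := hm₀ m hm
  linarith

theorem two_thm : TWOStmt := by
  classical
  intro F _ _ α β C ε hε
  obtain ⟨m₀, hm₀⟩ := lim (C + 2 + α + 2 * β) ε hε
  refine ⟨2 * m₀ + C + 2 * (2 * α + β), fun n hn => ?_⟩
  have hn1 : 2 * α + β ≤ n + 1 := by omega
  have hfin := Vd_finite F n α β
  let T := ((Finset.univ : Finset (Fin 10)) ×ˢ ((Finset.univ : Finset (Fin 10)) ×ˢ
        Finset.Ico ((n - C) / 2) (n + 1 + α + 2 * β))).filter (fun x => x.1 ≠ x.2.1)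
  have hq : (2 : ℝ) ≤ Nat.card F := by
    have h1 : 1 < Nat.card F := Finite.one_lt_card
    exact_mod_cast h1
  have hq0 : (0 : ℝ) < Nat.card F := by linarith
  -- the bound of the zero sets
  let m := (n - C) / 2
  have hm : m₀ ≤ m := by
    simp only [m]
    omega
  have hm2 : m + 2 * α + β ≤ n + 1 := by
    simp only [m]
    omega
  have key : ∀ (k : ℕ), m ≤ k → (1 / (Nat.card F : ℝ)) ^ k ≤ (1 / 2 : ℝ) ^ m := by
    intro k hk
    calc (1 / (Nat.card F : ℝ)) ^ k ≤ (1 / 2 : ℝ) ^ k := by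
          apply pow_le_pow_left₀ (by positivity)
          apply one_div_le_one_div_of_le (by norm_num) hq
      _ ≤ (1 / 2 : ℝ) ^ m := pow_le_pow_of_le_one (by norm_num) (by norm_num) hk
  have hZ : ∀ i, ((Z0 n α β i : Set (Fin 10 → F[X])).ncard : ℝ) ≤
      (1 / 2 : ℝ) ^ m * (Nat.card F : ℝ) ^ (10 * n + 10) := by
    intro i
    have h1 := Z0_card (F := F) hn1 i
    have h2 : ((Z0 n α β i : Set (Fin 10 → F[X])).ncard : ℝ) * (Nat.card F : ℝ) ^ (n + 1) ≤
        (Nat.card F : ℝ) ^ (10 * n + 10 + 2 * α + β) := by exact_mod_cast h1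
    obtain ⟨r, hr⟩ : ∃ r, n + 1 = m + 2 * α + β + r := ⟨n + 1 - (m + 2 * α + β), by omega⟩
    have h3 := key (m + r) (by omega)
    have h4 : (Nat.card F : ℝ) ^ (10 * n + 10 + 2 * α + β) =
        ((1 / (Nat.card F : ℝ)) ^ (m + r) * (Nat.card F : ℝ) ^ (10 * n + 10)) *
          (Nat.card F : ℝ) ^ (n + 1) := by
      have h5 : (1 / (Nat.card F : ℝ)) ^ (m + r) * (Nat.card F : ℝ) ^ (m + r) = 1 := by
        rw [← mul_pow, one_div, inv_mul_cancel₀ hq0.ne', one_pow]
      rw [show 10 * n + 10 + 2 * α + β = 10 * n + 10 + (2 * α + β) by ring, pow_add,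
        show n + 1 = (m + r) + (2 * α + β) by omega, pow_add _ (m + r)]
      linear_combination (-(Nat.card F : ℝ) ^ (10 * n + 10) * (Nat.card F : ℝ) ^ (2 * α + β)) * h5
    rw [h4] at h2
    have h6 := le_of_mul_le_mul_right h2 (by positivity)
    refine h6.trans ?_
    exact mul_le_mul_of_nonneg_right h3 (by positivity)
  have hS : ∀ x ∈ T, ((Sd n α β x.1 x.2.1 x.2.2 : Set (Fin 10 → F[X])).ncard : ℝ) ≤
      (1 / 2 : ℝ) ^ m * (Nat.card F : ℝ) ^ (10 * n + 10) := by
    intro x hx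
    rw [Finset.mem_filter, Finset.mem_product, Finset.mem_product, Finset.mem_Ico] at hx
    have h1 := Sd_card (F := F) hn1 hx.2 x.2.2
    have h2 : ((Sd n α β x.1 x.2.1 x.2.2 : Set (Fin 10 → F[X])).ncard : ℝ) *
        (Nat.card F : ℝ) ^ x.2.2 ≤ (Nat.card F : ℝ) ^ (10 * n + 10) := by exact_mod_cast h1
    have h3 := key x.2.2 hx.1.2.2.1
    have h4 : (Nat.card F : ℝ) ^ (10 * n + 10) =
        ((1 / (Nat.card F : ℝ)) ^ x.2.2 * (Nat.card F : ℝ) ^ (10 * n + 10)) *
          (Nat.card F : ℝ) ^ x.2.2 := by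
      have h5 : (1 / (Nat.card F : ℝ)) ^ x.2.2 * (Nat.card F : ℝ) ^ x.2.2 = 1 := by
        rw [← mul_pow, one_div, inv_mul_cancel₀ hq0.ne', one_pow]
      linear_combination (-(Nat.card F : ℝ) ^ (10 * n + 10)) * h5
    rw [h4] at h2
    have h6 := le_of_mul_le_mul_right h2 (by positivity)
    refine h6.trans ?_
    exact mul_le_mul_of_nonneg_right h3 (by positivity)
  have hcov := cover (F := F) (C := C) hn1
  have hZf : ∀ i, (Z0 n α β i : Set (Fin 10 → F[X])).Finite := fun i =>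
    hfin.subset fun c hc => hc.1
  have hSf : ∀ i j d, (Sd n α β i j d : Set (Fin 10 → F[X])).Finite := fun i j d =>
    hfin.subset fun c hc => hc.1
  have hU1 : (⋃ i ∈ (Finset.univ : Finset (Fin 10)),
      (Z0 n α β i : Set (Fin 10 → F[X]))).Finite :=
    Set.Finite.biUnion (Finset.finite_toSet _) fun i _ => hZf i
  have hU2 : (⋃ x ∈ T, (Sd n α β x.1 x.2.1 x.2.2 : Set (Fin 10 → F[X]))).Finite :=
    Set.Finite.biUnion (Finset.finite_toSet _) fun x _ => hSf _ _ _
  have hA : ((⋃ i ∈ (Finset.univ : Finset (Fin 10)),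
      (Z0 n α β i : Set (Fin 10 → F[X]))).ncard : ℝ) ≤
      10 * ((1 / 2 : ℝ) ^ m * (Nat.card F : ℝ) ^ (10 * n + 10)) := by
    have h1 := Finset.set_ncard_biUnion_le (Finset.univ : Finset (Fin 10))
      (fun i => (Z0 n α β i : Set (Fin 10 → F[X])))
    calc _ ≤ ((∑ i : Fin 10, (Z0 n α β i : Set (Fin 10 → F[X])).ncard : ℕ) : ℝ) := by
          exact_mod_cast h1
      _ = ∑ i : Fin 10, ((Z0 n α β i : Set (Fin 10 → F[X])).ncard : ℝ) := by push_cast; rfl
      _ ≤ ∑ _i : Fin 10, (1 / 2 : ℝ) ^ m * (Nat.card F : ℝ) ^ (10 * n + 10) :=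
          Finset.sum_le_sum fun i _ => hZ i
      _ = _ := by
          rw [Finset.sum_const, Finset.card_univ, Fintype.card_fin, nsmul_eq_mul]
          norm_num
  have hTc : (T.card : ℝ) ≤ 100 * (2 * m + (C + 2 + α + 2 * β)) := by
    have h1 : T.card ≤ 10 * (10 * (n + 1 + α + 2 * β - m)) := by
      refine (Finset.card_filter_le _ _).trans ?_
      rw [Finset.card_product, Finset.card_product, Finset.card_univ, Fintype.card_fin,
        Nat.card_Ico]
    have h2 : T.card ≤ 100 * (2 * m + (C + 2 + α + 2 * β)) := by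
      refine h1.trans ?_
      simp only [m]
      omega
    exact_mod_cast h2
  have hB : ((⋃ x ∈ T, (Sd n α β x.1 x.2.1 x.2.2 : Set (Fin 10 → F[X]))).ncard : ℝ) ≤
      100 * (2 * m + (C + 2 + α + 2 * β)) *
        ((1 / 2 : ℝ) ^ m * (Nat.card F : ℝ) ^ (10 * n + 10)) := by
    have h1 := Finset.set_ncard_biUnion_le T
      (fun x => (Sd n α β x.1 x.2.1 x.2.2 : Set (Fin 10 → F[X])))
    calc _ ≤ ((∑ x ∈ T, (Sd n α β x.1 x.2.1 x.2.2 : Set (Fin 10 → F[X])).ncard : ℕ) : ℝ) := by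
          exact_mod_cast h1
      _ = ∑ x ∈ T, ((Sd n α β x.1 x.2.1 x.2.2 : Set (Fin 10 → F[X])).ncard : ℝ) := by
          push_cast; rfl
      _ ≤ ∑ _x ∈ T, (1 / 2 : ℝ) ^ m * (Nat.card F : ℝ) ^ (10 * n + 10) :=
          Finset.sum_le_sum fun x hx => hS x hx
      _ = T.card * ((1 / 2 : ℝ) ^ m * (Nat.card F : ℝ) ^ (10 * n + 10)) := by
          rw [Finset.sum_const, nsmul_eq_mul]
      _ ≤ _ := mul_le_mul_of_nonneg_right hTc (by positivity)
  have hfinal := Set.ncard_le_ncard hcov (hU1.union hU2)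
  have hunion := Set.ncard_union_le (⋃ i ∈ (Finset.univ : Finset (Fin 10)),
      (Z0 n α β i : Set (Fin 10 → F[X]))) (⋃ x ∈ T, (Sd n α β x.1 x.2.1 x.2.2 : Set (Fin 10 → F[X])))
  have hlim := hm₀ m hm
  push_cast at hlim
  calc _ ≤ ((_ + _ : ℕ) : ℝ) := by exact_mod_cast hfinal.trans hunion
    _ ≤ 10 * ((1 / 2 : ℝ) ^ m * (Nat.card F : ℝ) ^ (10 * n + 10)) +
        100 * (2 * m + (C + 2 + α + 2 * β)) *
        ((1 / 2 : ℝ) ^ m * (Nat.card F : ℝ) ^ (10 * n + 10)) := by
        push_cast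
        exact add_le_add hA hB
    _ = (100 * (2 * m + (C + 2 + α + 2 * β)) + 10) * (1 / 2 : ℝ) ^ m *
        (Nat.card F : ℝ) ^ (10 * n + 10) := by ring
    _ ≤ ε * (Nat.card F : ℝ) ^ (10 * n + 10) :=
        mul_le_mul_of_nonneg_right hlim (by positivity)

end Pool.Agent.H93.AV3C
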